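import Pool.Agent.X276.SemiBase

/-!
# Seminormal domains all of whose height one primes are associated to the normalization quotient

For every `d ≥ 1` there is a seminormal Noetherian domain `R` of dimension `d` such that every height
one prime of `R` is an associated prime of `R^n / R`. With `L = Frac 𝔽_2[τ_0, τ_1, …]`,
`D = L[x_1, …, x_d]`, `A` the ring of constants of all `∂/∂τ_i` on `D`, and a sequence `π_n` of
elements of `D` free of `τ_n, τ_{n+1}, …` that contains exactly one associate of each prime element
of `D`, the ring is `R = A[z_0, z_1, …]` with `z_0 = π_0 τ_0` and `z_{n+1} = τ_n + π_{n+1} τ_{n+1}`.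
-/

set_option autoImplicit false

namespace Pool.Agent.Results.MP_8f4fb2_ag.SeminormalAllHeightOne

/-- The element `x` of the fraction field of `R` lies in `R`. -/
def InRing (R : Type) [CommRing R] [IsDomain R] (x : FractionRing R) : Prop :=
  ∃ a : R, algebraMap R (FractionRing R) a = x

/-- A domain `R` is seminormal if each `x` in its fraction field with `x ^ 2, x ^ 3 ∈ R` lies in
`R`. -/
def IsSeminormal (R : Type) [CommRing R] [IsDomain R] : Prop :=
  ∀ x : FractionRing R, InRing R (x ^ 2) → InRing R (x ^ 3) → InRing R x

/-- The prime `P` is an associated prime of the `R`-module `R^n / R`, where `R^n` is the integral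
closure of `R` in its fraction field: there is an element `y` of `R^n` such that
`P = {r | r y ∈ R}`, that is, `P` is the annihilator of the class of `y`. -/
def IsAssociatedToNormQuot (R : Type) [CommRing R] [IsDomain R] (P : Ideal R) : Prop :=
  ∃ y : FractionRing R, IsIntegral R y ∧
    ∀ r : R, r ∈ P ↔ InRing R (algebraMap R (FractionRing R) r * y)

/-- For every `d ≥ 1` there is a seminormal Noetherian domain `R` of Krull dimension `d` such that
every height one prime ideal of `R` is an associated prime of `R^n / R`. -/
theorem result (d : ℕ) (hd : 1 ≤ d) : ∃ (R : Type) (_ : CommRing R) (_ : IsDomain R),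
    IsNoetherianRing R ∧ IsSeminormal R ∧ ringKrullDim R = d ∧
    ∀ P : Ideal R, P.IsPrime → P.height = 1 → IsAssociatedToNormQuot R P := by
  obtain ⟨R, h1, h2, h3, h4, h5, h6⟩ := Pool.Agent.X276.Semi.main d
  refine ⟨R, h1, h2, h3, h5, h4, fun P hP hP1 => ?_⟩
  obtain ⟨m, hm⟩ := h6 P hP hP1
  obtain ⟨y, rfl⟩ := Submodule.Quotient.mk_surjective _ m
  refine ⟨y.1, y.2, fun r => ?_⟩
  rw [hm r, ← Submodule.Quotient.mk_smul, Submodule.Quotient.mk_eq_zero]
  constructor
  · rintro ⟨a, ha⟩
    refine ⟨a, ?_⟩
    have h := congrArg Subtype.val ha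
    rw [Algebra.smul_def] at h
    exact h
  · rintro ⟨a, ha⟩
    refine ⟨a, Subtype.ext ?_⟩
    rw [Algebra.smul_def]
    exact ha

end Pool.Agent.Results.MP_8f4fb2_ag.SeminormalAllHeightOne
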